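import Pool.Agent.V5helper32.CM.Stm

/-!
# Project CM, job EREG: the Euler characteristic of a regular sequence
-/

set_option autoImplicit false

namespace Pool.Agent.V5helper50.CM

open MvPolynomial Pool.Agent.V5helper32.CM

section reg

variable {Λ : Type} [Ring Λ] [Algebra ℂ Λ]

/-- The submodule generated by the `x • m`, `x ∈ S`. -/
def sp (S : Set Λ) (M : Type) [AddCommGroup M] [Module Λ M] : Submodule Λ M :=
  Submodule.span Λ {v | ∃ x ∈ S, ∃ m : M, v = x • m}

/-- `xs` is a regular sequence on `M / S M`. -/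
def Rg (M : Type) [AddCommGroup M] [Module Λ M] : Set Λ → List Λ → Prop
  | _, [] => True
  | S, x :: xs => (∀ m : M, x • m ∈ sp S M → m ∈ sp S M) ∧ Rg M (insert x S) xs

theorem sub_zero_fn {φ : Fn Λ} (hi : IsoFn φ) (ha : AddFn φ) (M : Type) [AddCommGroup M]
    [Module ℂ M] [Module Λ M] [IsScalarTower ℂ Λ M] [Subsingleton M] : φ M = 0 := by
  have h1 := ha M (⊥ : Submodule Λ M)
  have h2 : φ (M ⧸ (⊥ : Submodule Λ M)) = φ M :=
    hi _ _ (Submodule.quotEquivOfEqBot ⊥ rfl)
  rw [h2] at h1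
  have h3 : φ (⊥ : Submodule Λ M) = φ M := by
    refine hi _ _ (LinearEquiv.ofBijective (⊥ : Submodule Λ M).subtype
      ⟨Submodule.injective_subtype _, fun y => ⟨0, Subsingleton.elim _ _⟩⟩)
  rw [h3] at h1
  linear_combination -h1

theorem EE_zero {φ : Fn Λ} (hi : IsoFn φ) (ha : AddFn φ) (xs : List Λ) :
    ∀ (M : Type) [AddCommGroup M] [Module ℂ M] [Module Λ M] [IsScalarTower ℂ Λ M]
      [Subsingleton M], EE φ xs M = 0 := by
  induction xs with
  | nil => intro M _ _ _ _ _; exact sub_zero_fn hi ha M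
  | cons x xs ih =>
    intro M _ _ _ _ _
    change EE φ xs (M ⧸ rx x M) - EE φ xs (kx x M) = 0
    rw [ih (M ⧸ rx x M), ih (kx x M), sub_zero]

theorem rx_quot (x : Λ) (S : Set Λ) (M : Type) [AddCommGroup M] [Module Λ M] :
    (sp (insert x S) M).map (sp S M).mkQ = rx x (M ⧸ sp S M) := by
  unfold sp rx
  apply le_antisymm
  · rw [Submodule.map_span_le]
    rintro v ⟨y, hy, m, rfl⟩
    rcases hy with rfl | hy
    · refine Submodule.subset_span ⟨Submodule.mkQ _ m, ?_⟩
      simp
    · have h1 : y • m ∈ Submodule.span Λ {v | ∃ x ∈ S, ∃ m : M, v = x • m} :=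
        Submodule.subset_span ⟨y, hy, m, rfl⟩
      rw [Submodule.mkQ_apply, (Submodule.Quotient.mk_eq_zero _).2 h1]
      exact Submodule.zero_mem _
  · rw [Submodule.span_le]
    rintro v ⟨m, rfl⟩
    obtain ⟨m, rfl⟩ := Submodule.mkQ_surjective _ m
    refine ⟨x • m, Submodule.subset_span ⟨x, Set.mem_insert _ _, m, rfl⟩, ?_⟩
    simp

theorem sp_mono {S S' : Set Λ} (h : S ⊆ S') (M : Type) [AddCommGroup M] [Module Λ M] :
    sp S M ≤ sp S' M := by
  unfold sp
  refine Submodule.span_mono ?_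
  rintro v ⟨x, hx, m, rfl⟩
  exact ⟨x, h hx, m, rfl⟩

/-- The Euler characteristic of a regular sequence. -/
theorem EE_reg (hE : S_EISO) {φ : Fn Λ} (hi : IsoFn φ) (ha : AddFn φ) (M : Type) [AddCommGroup M]
    [Module ℂ M] [Module Λ M] [IsScalarTower ℂ Λ M] (xs : List Λ) :
    ∀ S : Set Λ, Rg M S xs → EE φ xs (M ⧸ sp S M) = φ (M ⧸ sp (S ∪ {x | x ∈ xs}) M) := by
  induction xs with
  | nil =>
    intro S _
    have h1 : S ∪ {x | x ∈ ([] : List Λ)} = S := by
      ext y
      simp
    rw [h1]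
    rfl
  | cons x xs ih =>
    intro S hS
    obtain ⟨h1, h2⟩ := hS
    change EE φ xs ((M ⧸ sp S M) ⧸ rx x (M ⧸ sp S M)) - EE φ xs (kx x (M ⧸ sp S M)) = _
    have h3 : Subsingleton (kx x (M ⧸ sp S M)) := by
      refine ⟨fun u v => ?_⟩
      have h4 : ∀ w : kx x (M ⧸ sp S M), w = 0 := by
        rintro ⟨w, hw⟩
        obtain ⟨m, rfl⟩ := Submodule.mkQ_surjective _ w
        have h5 := hw 1
        rw [one_smul, Submodule.mkQ_apply, ← Submodule.Quotient.mk_smul,
          Submodule.Quotient.mk_eq_zero] at h5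
        apply Subtype.ext
        change Submodule.mkQ _ m = 0
        rw [Submodule.mkQ_apply, Submodule.Quotient.mk_eq_zero]
        exact h1 m h5
      rw [h4 u, h4 v]
    rw [EE_zero hi ha xs (kx x (M ⧸ sp S M)), sub_zero]
    have e1 : ((M ⧸ sp S M) ⧸ rx x (M ⧸ sp S M)) ≃ₗ[Λ] (M ⧸ sp (insert x S) M) :=
      (Submodule.quotEquivOfEq _ _ (rx_quot x S M).symm).trans
        (Submodule.quotientQuotientEquivQuotient _ _ (sp_mono (Set.subset_insert x S) M))
    rw [hE Λ φ hi xs _ _ e1, ih _ h2]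
    have h6 : insert x S ∪ {y | y ∈ xs} = S ∪ {y | y ∈ x :: xs} := by
      ext y
      simp only [Set.mem_union, Set.mem_insert_iff, Set.mem_ofPred_eq, List.mem_cons]
      tauto
    rw [h6]

end reg

section free

variable {r : ℕ} {F : Type} [AddCommGroup F] [Module (MvPolynomial (Fin r) ℂ) F]
  [Module.Free (MvPolynomial (Fin r) ℂ) F]

theorem mem_smul_iff {ι : Type} (b : Module.Basis ι (MvPolynomial (Fin r) ℂ) F)
    (I : Ideal (MvPolynomial (Fin r) ℂ)) (u : F) :
    u ∈ I • (⊤ : Submodule (MvPolynomial (Fin r) ℂ) F) ↔ ∀ c, b.repr u c ∈ I := by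
  constructor
  · intro h c
    induction h using Submodule.smul_induction_on' with
    | smul q hq w _ =>
      rw [map_smul, Finsupp.smul_apply, smul_eq_mul]
      exact Ideal.mul_mem_right _ _ hq
    | add x _ y _ hx hy =>
      rw [map_add, Finsupp.add_apply]
      exact I.add_mem hx hy
  · intro h
    rw [← b.linearCombination_repr u, Finsupp.linearCombination_apply]
    refine Submodule.sum_mem _ fun c _ => ?_
    exact Submodule.smul_mem_smul (h c) trivial

theorem free_reg (s : Set (Fin r)) (i : Fin r) (hi : i ∉ s) (u : F)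
    (hu : (X i : MvPolynomial (Fin r) ℂ) • u ∈
      Ideal.span ((X : Fin r → MvPolynomial (Fin r) ℂ) '' s) • (⊤ : Submodule (MvPolynomial (Fin r) ℂ) F)) :
    u ∈ Ideal.span ((X : Fin r → MvPolynomial (Fin r) ℂ) '' s) • (⊤ : Submodule (MvPolynomial (Fin r) ℂ) F) := by
  have b := Module.Free.chooseBasis (MvPolynomial (Fin r) ℂ) F
  rw [mem_smul_iff b] at hu ⊢
  intro c
  have h1 := hu c
  rw [map_smul, Finsupp.smul_apply, smul_eq_mul, MvPolynomial.mem_ideal_span_X_image] at h1
  rw [MvPolynomial.mem_ideal_span_X_image]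
  intro m hm
  have h2 : m + Finsupp.single i 1 ∈ (X i * b.repr u c).support := by
    rw [MvPolynomial.mem_support_iff, mul_comm, MvPolynomial.coeff_mul_X]
    exact MvPolynomial.mem_support_iff.1 hm
  obtain ⟨k, hk, hk'⟩ := h1 _ h2
  refine ⟨k, hk, ?_⟩
  have h3 : k ≠ i := by
    rintro rfl
    exact hi hk
  simpa [Finsupp.single_apply, h3.symm] using hk'

end free

section summand

variable {Λ : Type} [Ring Λ] [Algebra ℂ Λ] {r : ℕ} (a : MvPolynomial (Fin r) ℂ →ₐ[ℂ] Λ)
  (hc : ∀ q l, a q * l = l * a q) (M : Type) [AddCommGroup M] [Module ℂ M] [Module Λ M]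
  [IsScalarTower ℂ Λ M] (F : Type) [AddCommGroup F] [Module (MvPolynomial (Fin r) ℂ) F]
  [Module.Free (MvPolynomial (Fin r) ℂ) F] (j : M →+ F) (π : F →+ M)
  (hj : ∀ q m, j (a q • m) = q • j m)
  (hπ : ∀ (q : MvPolynomial (Fin r) ℂ) v, π (q • v) = a q • π v)
  (hπj : ∀ m, π (j m) = m)

include hc hj in
theorem j_mem (s : Set (Fin r)) (v : M) (hv : v ∈ sp ((fun i => a (X i)) '' s) M) (l : Λ) :
    j (l • v) ∈ Ideal.span ((X : Fin r → MvPolynomial (Fin r) ℂ) '' s) • (⊤ : Submodule (MvPolynomial (Fin r) ℂ) F) := by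
  unfold sp at hv
  induction hv using Submodule.span_induction generalizing l with
  | mem x hx =>
    obtain ⟨y, ⟨i, hi, rfl⟩, m, rfl⟩ := hx
    change j (l • a (X i) • m) ∈ _
    rw [smul_smul, ← hc, ← smul_smul, hj]
    exact Submodule.smul_mem_smul (Ideal.subset_span ⟨i, hi, rfl⟩) trivial
  | zero =>
    rw [smul_zero, map_zero]
    exact Submodule.zero_mem _
  | add x y _ _ hx hy =>
    rw [smul_add, map_add]
    exact Submodule.add_mem _ (hx l) (hy l)
  | smul c x _ hx =>
    rw [smul_smul]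
    exact hx _

include hπ in
theorem π_mem (s : Set (Fin r)) (w : F)
    (hw : w ∈ Ideal.span ((X : Fin r → MvPolynomial (Fin r) ℂ) '' s) • (⊤ : Submodule (MvPolynomial (Fin r) ℂ) F)) :
    π w ∈ sp ((fun i => a (X i)) '' s) M := by
  induction hw using Submodule.smul_induction_on' with
  | smul q hq w _ =>
    rw [hπ]
    generalize π w = m
    induction hq using Submodule.span_induction with
    | mem x hx =>
      obtain ⟨i, hi, rfl⟩ := hx
      exact Submodule.subset_span ⟨_, ⟨i, hi, rfl⟩, m, rfl⟩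
    | zero =>
      rw [map_zero, zero_smul]
      exact Submodule.zero_mem _
    | add x y _ _ hx hy =>
      rw [map_add, add_smul]
      exact Submodule.add_mem _ hx hy
    | smul c x _ hx =>
      rw [smul_eq_mul, map_mul, mul_smul]
      exact Submodule.smul_mem _ _ hx
  | add x _ y _ hx hy =>
    rw [map_add]
    exact Submodule.add_mem _ hx hy

include hc hj hπ hπj in
theorem summand_reg (s : Set (Fin r)) (i : Fin r) (hi : i ∉ s) (m : M)
    (hm : a (X i) • m ∈ sp ((fun i => a (X i)) '' s) M) :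
    m ∈ sp ((fun i => a (X i)) '' s) M := by
  have h1 := j_mem a hc M F j hj s _ hm 1
  rw [one_smul, hj] at h1
  have h2 := π_mem a M F π hπ s _ (free_reg s i hi _ h1)
  rwa [hπj] at h2

include hc hj hπ hπj in
theorem summand_Rg (l : List (Fin r)) (hl : l.Nodup) :
    ∀ s : Set (Fin r), (∀ i ∈ l, i ∉ s) →
      Rg M ((fun i => a (X i)) '' s) (l.map fun i => a (X i)) := by
  induction l with
  | nil => intro s _; trivial
  | cons i l ih =>
    intro s hs
    rw [List.nodup_cons] at hl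
    refine ⟨fun m hm => summand_reg a hc M F j π hj hπ hπj s i (hs i (by simp)) m hm, ?_⟩
    have h1 := ih hl.2 (insert i s) (by
      intro k hk hk'
      rcases hk' with rfl | hk'
      · exact hl.1 hk
      · exact hs k (List.mem_cons_of_mem _ hk) hk')
    rw [Set.image_insert_eq] at h1
    exact h1

end summand

theorem t_EREG (hE : S_EISO) : S_EREG := by
  intro Λ _ _ φ hi ha r a hc M _ _ _ _ F _ _ _ j π hj hπ hπj N hN
  have h1 := summand_Rg a hc M F j π hj hπ hπj (List.finRange r) (List.nodup_finRange r) ∅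
    (by simp)
  rw [Set.image_empty] at h1
  rw [List.ofFn_eq_map]
  have h2 := EE_reg hE hi ha M _ ∅ h1
  have h3 : sp (∅ : Set Λ) M = ⊥ := by
    unfold sp
    rw [Submodule.span_eq_bot]
    rintro v ⟨x, hx, _⟩
    exact hx.elim
  rw [hE Λ φ hi _ _ _ (Submodule.quotEquivOfEqBot _ h3)] at h2
  rw [h2]
  have h4 : sp (∅ ∪ {x | x ∈ (List.finRange r).map fun i => a (X i)}) M = N := by
    rw [hN]
    unfold sp
    congr 1
    ext v
    simp only [Set.empty_union, Set.mem_ofPred_eq, List.mem_map, List.mem_finRange, true_and]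
    constructor
    · rintro ⟨x, ⟨i, rfl⟩, m, rfl⟩
      exact ⟨i, m, rfl⟩
    · rintro ⟨i, m, rfl⟩
      exact ⟨_, ⟨i, rfl⟩, m, rfl⟩
  rw [h4]

end Pool.Agent.V5helper50.CM
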