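import Pool.Agent.V5helper32.CM.Stm

/-!
# Project CM, job PHI: the trace of `t` on a generalised eigenspace
-/

set_option autoImplicit false

namespace Pool.Agent.V5helper50.CM

open Pool.Agent.V5helper32.CM

/-- The trace is additive in exact sequences. -/
theorem trace_exact {A B C : Type} [AddCommGroup A] [Module ℂ A] [AddCommGroup B] [Module ℂ B]
    [AddCommGroup C] [Module ℂ C] [FiniteDimensional ℂ A] [FiniteDimensional ℂ B]
    [FiniteDimensional ℂ C] (i : A →ₗ[ℂ] B) (q : B →ₗ[ℂ] C) (hi : Function.Injective i)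
    (hq : Function.Surjective q) (hqi : ∀ b, q b = 0 ↔ ∃ a, i a = b)
    (S : A →ₗ[ℂ] A) (T : B →ₗ[ℂ] B) (U : C →ₗ[ℂ] C) (h1 : ∀ a, T (i a) = i (S a))
    (h2 : ∀ b, q (T b) = U (q b)) :
    LinearMap.trace ℂ B T = LinearMap.trace ℂ A S + LinearMap.trace ℂ C U := by
  obtain ⟨s, hs⟩ := q.exists_rightInverse_of_surjective (LinearMap.range_eq_top.2 hq)
  obtain ⟨p, hp⟩ := i.exists_leftInverse_of_injective (LinearMap.ker_eq_bot.2 hi)
  -- the retraction
  let ρ : B →ₗ[ℂ] A := p ∘ₗ (LinearMap.id - s ∘ₗ q)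
  have hs' : ∀ c, q (s c) = c := fun c => by
    have := LinearMap.congr_fun hs c
    simpa using this
  have hp' : ∀ a, p (i a) = a := fun a => by
    have := LinearMap.congr_fun hp a
    simpa using this
  have hρ : ∀ b, i (ρ b) = b - s (q b) := by
    intro b
    have h3 : q (b - s (q b)) = 0 := by rw [map_sub, hs', sub_self]
    obtain ⟨a, ha⟩ := (hqi _).1 h3
    change i (p (b - s (q b))) = _
    rw [← ha, hp']
  have hρi : ∀ a, ρ (i a) = a := by
    intro a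
    apply hi
    rw [hρ, (hqi _).2 ⟨a, rfl⟩, map_zero, sub_zero]
  have hT : T = (T ∘ₗ i) ∘ₗ ρ + (T ∘ₗ s) ∘ₗ q := by
    ext b
    simp only [LinearMap.add_apply, LinearMap.comp_apply, hρ]
    rw [← map_add]
    congr 1
    abel
  have e1 : ρ ∘ₗ (T ∘ₗ i) = S := by
    ext a
    simp only [LinearMap.comp_apply, h1, hρi]
  have e2 : q ∘ₗ (T ∘ₗ s) = U := by
    ext c
    simp only [LinearMap.comp_apply, h2, hs']
  rw [hT, map_add, LinearMap.trace_comp_comm' ρ (T ∘ₗ i), LinearMap.trace_comp_comm' q (T ∘ₗ s),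
    e1, e2]

section

variable {Λ : Type} [Ring Λ] [Algebra ℂ Λ] {Z : Type} [CommRing Z] [Algebra ℂ Z]

theorem mem_gsp_iff (ι : Z →ₐ[ℂ] Λ) (p : Z → ℂ) (M : Type) [AddCommGroup M] [Module ℂ M]
    [Module Λ M] [IsScalarTower ℂ Λ M] (m : M) :
    m ∈ ⨅ z : Z, (Algebra.lsmul ℂ ℂ M (ι z) : Module.End ℂ M).maxGenEigenspace (p z) ↔
      ∀ z : Z, ∃ N : ℕ, (ι z - algebraMap ℂ Λ (p z)) ^ N • m = 0 := by
  rw [Module.End.mem_iInf_maxGenEigenspace_iff]
  refine forall_congr' fun z => exists_congr fun N => ?_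
  have h1 : (Algebra.lsmul ℂ ℂ M (ι z) : Module.End ℂ M) - p z • (1 : Module.End ℂ M) =
      Algebra.lsmul ℂ ℂ M (ι z - algebraMap ℂ Λ (p z)) := by
    rw [map_sub, AlgHom.commutes, Algebra.algebraMap_eq_smul_one]
  rw [h1, ← map_pow]
  rfl

theorem gsp_eq (ι : Z →ₐ[ℂ] Λ) (p : Z →ₐ[ℂ] ℂ) (M : Type) [AddCommGroup M] [Module ℂ M]
    [Module Λ M] [IsScalarTower ℂ Λ M] :
    gsp ι p M = ⨅ z : Z, (Algebra.lsmul ℂ ℂ M (ι z) : Module.End ℂ M).maxGenEigenspace (p z) := by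
  ext m
  rw [mem_gsp_iff]
  rfl

theorem commute_lsmul (ι : Z →ₐ[ℂ] Λ) (M : Type) [AddCommGroup M] [Module ℂ M]
    [Module Λ M] [IsScalarTower ℂ Λ M] (z z' : Z) :
    Commute (Algebra.lsmul ℂ ℂ M (ι z) : Module.End ℂ M) (Algebra.lsmul ℂ ℂ M (ι z')) := by
  have h1 : Commute (ι z) (ι z') := by
    have := Commute.all z z'
    exact this.map ι
  exact h1.map (Algebra.lsmul ℂ ℂ M)

theorem gspan (ι : Z →ₐ[ℂ] Λ) (M : Type) [AddCommGroup M] [Module ℂ M]
    [Module Λ M] [IsScalarTower ℂ Λ M] [FiniteDimensional ℂ M] :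
    ⨆ χ : Z → ℂ, ⨅ z : Z, (Algebra.lsmul ℂ ℂ M (ι z) : Module.End ℂ M).maxGenEigenspace (χ z) =
      ⊤ :=
  Module.End.iSup_iInf_maxGenEigenspace_eq_top_of_iSup_maxGenEigenspace_eq_top_of_commute _
    (fun z z' _ => commute_lsmul ι M z z')
    (fun z => Module.End.iSup_maxGenEigenspace_eq_top _)

theorem gindep (ι : Z →ₐ[ℂ] Λ) (M : Type) [AddCommGroup M] [Module ℂ M]
    [Module Λ M] [IsScalarTower ℂ Λ M] :
    iSupIndep fun χ : Z → ℂ =>
      ⨅ z : Z, (Algebra.lsmul ℂ ℂ M (ι z) : Module.End ℂ M).maxGenEigenspace (χ z) :=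
  Module.End.independent_iInf_maxGenEigenspace_of_forall_mapsTo _
    (fun z z' μ => Module.End.mapsTo_maxGenEigenspace_of_comm (commute_lsmul ι M z' z) μ)

/-- `gsp M → gsp (M / N)` is surjective. -/
theorem gsp_lift (ι : Z →ₐ[ℂ] Λ) (p : Z →ₐ[ℂ] ℂ) (M : Type) [AddCommGroup M] [Module ℂ M]
    [Module Λ M] [IsScalarTower ℂ Λ M] [FiniteDimensional ℂ M] (N : Submodule Λ M)
    (v : M ⧸ N) (hv : v ∈ gsp ι p (M ⧸ N)) : ∃ m ∈ gsp ι p M, N.mkQ m = v := by
  obtain ⟨m, rfl⟩ := N.mkQ_surjective v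
  have h1 : m ∈ ⨆ χ : Z → ℂ,
      ⨅ z : Z, (Algebra.lsmul ℂ ℂ M (ι z) : Module.End ℂ M).maxGenEigenspace (χ z) := by
    rw [gspan]
    trivial
  have h2 : m ∈ (⨅ z : Z, (Algebra.lsmul ℂ ℂ M (ι z) : Module.End ℂ M).maxGenEigenspace (p z)) ⊔
      ⨆ (χ : Z → ℂ) (_ : χ ≠ p),
        ⨅ z : Z, (Algebra.lsmul ℂ ℂ M (ι z) : Module.End ℂ M).maxGenEigenspace (χ z) := by
    refine SetLike.le_def.1 (iSup_le fun χ => ?_) h1
    by_cases h : χ = p
    · rw [h]
      exact le_sup_left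
    · exact le_trans (le_iSup₂_of_le χ h le_rfl) le_sup_right
  obtain ⟨g, hg, c, hc, rfl⟩ := Submodule.mem_sup.1 h2
  refine ⟨g, ?_, ?_⟩
  · rw [gsp_eq]
    exact hg
  · have h3 : ∀ (χ : Z → ℂ) (x : M),
        x ∈ (⨅ z : Z, (Algebra.lsmul ℂ ℂ M (ι z) : Module.End ℂ M).maxGenEigenspace (χ z)) →
        N.mkQ x ∈ ⨅ z : Z,
          (Algebra.lsmul ℂ ℂ (M ⧸ N) (ι z) : Module.End ℂ (M ⧸ N)).maxGenEigenspace (χ z) := by
      intro χ x hx
      rw [mem_gsp_iff] at hx ⊢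
      intro z
      obtain ⟨k, hk⟩ := hx z
      exact ⟨k, by rw [← map_smul, hk, map_zero]⟩
    have h4 : N.mkQ c ∈ ⨆ (χ : Z → ℂ) (_ : χ ≠ p),
        ⨅ z : Z, (Algebra.lsmul ℂ ℂ (M ⧸ N) (ι z) : Module.End ℂ (M ⧸ N)).maxGenEigenspace
          (χ z) := by
      have h5 : (⨆ (χ : Z → ℂ) (_ : χ ≠ p),
          ⨅ z : Z, (Algebra.lsmul ℂ ℂ M (ι z) : Module.End ℂ M).maxGenEigenspace (χ z)) ≤
          (⨆ (χ : Z → ℂ) (_ : χ ≠ p),
            ⨅ z : Z, (Algebra.lsmul ℂ ℂ (M ⧸ N) (ι z) : Module.End ℂ (M ⧸ N)).maxGenEigenspace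
              (χ z)).comap (N.mkQ.restrictScalars ℂ) := by
        refine iSup₂_le fun χ hχ x hx => ?_
        rw [Submodule.mem_comap]
        exact Submodule.mem_iSup_of_mem χ (Submodule.mem_iSup_of_mem hχ (h3 χ x hx))
      exact h5 hc
    have h6 : N.mkQ c ∈ ⨅ z : Z,
        (Algebra.lsmul ℂ ℂ (M ⧸ N) (ι z) : Module.End ℂ (M ⧸ N)).maxGenEigenspace (p z) := by
      have h7 : N.mkQ c = N.mkQ (g + c) - N.mkQ g := by
        rw [map_add, add_sub_cancel_left]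
      rw [h7]
      refine Submodule.sub_mem _ ?_ (h3 _ g hg)
      rw [gsp_eq] at hv
      exact hv
    have h8 : N.mkQ c = 0 := by
      have h9 := (gindep ι (M ⧸ N)) (p : Z → ℂ)
      exact Submodule.disjoint_def.1 h9 _ h6 h4
    rw [map_add, h8, add_zero]

end

theorem phi_second (Z Z' : Type) [CommRing Z] [Algebra ℂ Z] [CommRing Z'] [Algebra ℂ Z']
    (Λ Λ' : Type) [Ring Λ] [Algebra ℂ Λ] [Ring Λ'] [Algebra ℂ Λ']
    (ι : Z →ₐ[ℂ] Λ) (t : Λ) (ι' : Z' →ₐ[ℂ] Λ') (t' : Λ') (e : Z → Z') (p : Z →ₐ[ℂ] ℂ)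
    (p' : Z' →ₐ[ℂ] ℂ) (η : ℂ)
    (M M' : Type) [AddCommGroup M] [Module ℂ M] [Module Λ M] [IsScalarTower ℂ Λ M]
      [AddCommGroup M'] [Module ℂ M'] [Module Λ' M'] [IsScalarTower ℂ Λ' M'] (ψ : M ≃ₗ[ℂ] M')
    (he : Function.Surjective e) (hp : ∀ z, p z = p' (e z)) (hη : η ≠ 0)
    (hz : ∀ z m, ψ (ι z • m) = ι' (e z) • ψ m) (ht : ∀ m, ψ (t • m) = η • t' • ψ m) :
    phi ι p t M = η * phi ι' p' t' M' := by
  have hs : ∀ (c : ℂ) (l : Λ) (m : M), (algebraMap ℂ Λ c) • m = c • m := fun c l m => by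
    rw [algebraMap_smul]
  have hpow : ∀ z (N : ℕ) (m : M), ψ ((ι z - algebraMap ℂ Λ (p z)) ^ N • m) =
      (ι' (e z) - algebraMap ℂ Λ' (p' (e z))) ^ N • ψ m := by
    intro z N
    induction N with
    | zero => intro m; simp
    | succ N ih =>
      intro m
      rw [pow_succ, mul_smul, ih, pow_succ, mul_smul]
      congr 1
      rw [sub_smul, sub_smul, map_sub, hz, algebraMap_smul, algebraMap_smul, map_smul, hp]
  have hmem : ∀ m, m ∈ gsp ι p M ↔ ψ m ∈ gsp ι' p' M' := by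
    intro m
    constructor
    · intro h z'
      obtain ⟨z, rfl⟩ := he z'
      obtain ⟨N, hN⟩ := h z
      exact ⟨N, by rw [← hpow, hN, map_zero]⟩
    · intro h z
      obtain ⟨N, hN⟩ := h (e z)
      refine ⟨N, ?_⟩
      apply ψ.injective
      rw [hpow, hN, map_zero]
  have hiff : (∀ m ∈ gsp ι p M, Algebra.lsmul ℂ ℂ M t m ∈ gsp ι p M) ↔
      ∀ m ∈ gsp ι' p' M', Algebra.lsmul ℂ ℂ M' t' m ∈ gsp ι' p' M' := by
    constructor
    · intro h m' hm'
      obtain ⟨m, rfl⟩ := ψ.surjective m'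
      have h1 := h m ((hmem m).2 hm')
      rw [hmem] at h1
      change ψ (t • m) ∈ _ at h1
      rw [ht] at h1
      have h2 := Submodule.smul_mem _ η⁻¹ h1
      rwa [smul_smul, inv_mul_cancel₀ hη, one_smul] at h2
    · intro h m hm
      rw [hmem]
      change ψ (t • m) ∈ _
      rw [ht]
      exact Submodule.smul_mem _ _ (h _ ((hmem m).1 hm))
  unfold phi
  by_cases h : ∀ m ∈ gsp ι p M, Algebra.lsmul ℂ ℂ M t m ∈ gsp ι p M
  · rw [dif_pos h, dif_pos (hiff.1 h)]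
    let e' : gsp ι p M ≃ₗ[ℂ] gsp ι' p' M' :=
      LinearEquiv.ofBijective ((ψ.toLinearMap ∘ₗ (gsp ι p M).subtype).codRestrict (gsp ι' p' M')
        (fun m => (hmem m).1 m.2)) ⟨by
          intro a b hab
          have h1 := congrArg Subtype.val hab
          exact Subtype.ext (ψ.injective h1), by
          rintro ⟨m', hm'⟩
          obtain ⟨m, rfl⟩ := ψ.surjective m'
          exact ⟨⟨m, (hmem m).2 hm'⟩, rfl⟩⟩
    rw [← smul_eq_mul, ← map_smul, ← LinearMap.trace_conj' _ e']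
    congr 1
    ext x
    obtain ⟨y, rfl⟩ := e'.surjective x
    rw [LinearEquiv.conj_apply_apply, LinearEquiv.symm_apply_apply]
    change ψ (t • (y : M)) = η • t' • ψ (y : M)
    exact ht _
  · rw [dif_neg h, dif_neg (fun h' => h (hiff.2 h')), mul_zero]

theorem t_PHI : S_PHI := by
  refine ⟨?_, ?_⟩
  · intro Z _ _ τ Λ _ _ s p hp
    have hst : ∀ (M : Type) [AddCommGroup M] [Module ℂ M] [Module Λ M] [IsScalarTower ℂ Λ M],
        ∀ m ∈ gsp s.ι p M, s.t • m ∈ gsp s.ι p M := by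
      intro M _ _ _ _ m hm z
      obtain ⟨N, hN⟩ := hm (τ.symm z)
      refine ⟨N, ?_⟩
      have h1 : (s.ι z - algebraMap ℂ Λ (p z)) * s.t =
          s.t * (s.ι (τ.symm z) - algebraMap ℂ Λ (p (τ.symm z))) := by
        rw [sub_mul, mul_sub, s.comm, AlgEquiv.apply_symm_apply]
        have h2 : p (τ.symm z) = p z := by
          rw [← hp (τ.symm z), AlgEquiv.apply_symm_apply]
        rw [h2, Algebra.commutes]
      have h3 : ∀ k : ℕ, (s.ι z - algebraMap ℂ Λ (p z)) ^ k * s.t =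
          s.t * (s.ι (τ.symm z) - algebraMap ℂ Λ (p (τ.symm z))) ^ k := by
        intro k
        induction k with
        | zero => simp
        | succ k ih => rw [pow_succ, mul_assoc, h1, ← mul_assoc, ih, mul_assoc, ← pow_succ]
      rw [smul_smul, h3, mul_smul, hN, smul_zero]
    have hst' : ∀ (M : Type) [AddCommGroup M] [Module ℂ M] [Module Λ M] [IsScalarTower ℂ Λ M],
        ∀ m ∈ gsp s.ι p M, Algebra.lsmul ℂ ℂ M s.t m ∈ gsp s.ι p M :=
      fun M _ _ _ _ m hm => hst M m hm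
    refine ⟨?_, ?_, hst⟩
    · intro M M' _ _ _ _ _ _ _ _ ψ
      have h1 := phi_second Z Z Λ Λ s.ι s.t s.ι s.t id p p 1 M M' (ψ.restrictScalars ℂ)
        Function.surjective_id (fun _ => rfl) one_ne_zero (fun z m => by simp)
        (fun m => by simp)
      rw [one_mul] at h1
      exact h1
    · intro M _ _ _ _ _ N
      have : FiniteDimensional ℂ N :=
        Module.Finite.of_injective (N.subtype.restrictScalars ℂ) N.injective_subtype
      have : FiniteDimensional ℂ (M ⧸ N) :=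
        Module.Finite.of_surjective (N.mkQ.restrictScalars ℂ) N.mkQ_surjective
      unfold phi
      rw [dif_pos (hst' M), dif_pos (hst' N), dif_pos (hst' (M ⧸ N))]
      have hN : ∀ x : N, x ∈ gsp s.ι p N → (x : M) ∈ gsp s.ι p M := by
        intro x hx z
        obtain ⟨k, hk⟩ := hx z
        exact ⟨k, congrArg Subtype.val hk⟩
      have hQ : ∀ x : M, x ∈ gsp s.ι p M → N.mkQ x ∈ gsp s.ι p (M ⧸ N) := by
        intro x hx z
        obtain ⟨k, hk⟩ := hx z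
        exact ⟨k, by rw [← map_smul, hk, map_zero]⟩
      refine trace_exact
        (((N.subtype.restrictScalars ℂ) ∘ₗ (gsp s.ι p N).subtype).codRestrict (gsp s.ι p M)
          (fun x => hN x.1 x.2))
        (((N.mkQ.restrictScalars ℂ) ∘ₗ (gsp s.ι p M).subtype).codRestrict (gsp s.ι p (M ⧸ N))
          (fun x => hQ x.1 x.2)) ?_ ?_ ?_ _ _ _ ?_ ?_
      · intro a b hab
        have h1 := congrArg Subtype.val hab
        exact Subtype.ext (Subtype.ext h1)
      · rintro ⟨v, hv⟩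
        obtain ⟨m, hm, rfl⟩ := gsp_lift s.ι p M N v hv
        exact ⟨⟨m, hm⟩, rfl⟩
      · rintro ⟨b, hb⟩
        constructor
        · intro h
          have h1 := congrArg Subtype.val h
          change N.mkQ b = 0 at h1
          rw [Submodule.mkQ_apply, Submodule.Quotient.mk_eq_zero] at h1
          refine ⟨⟨⟨b, h1⟩, fun z => ?_⟩, rfl⟩
          obtain ⟨k, hk⟩ := hb z
          exact ⟨k, Subtype.ext hk⟩
        · rintro ⟨⟨a, ha⟩, h⟩
          have h1 := congrArg Subtype.val h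
          change (a : M) = b at h1
          apply Subtype.ext
          change N.mkQ b = 0
          rw [Submodule.mkQ_apply, Submodule.Quotient.mk_eq_zero, ← h1]
          exact a.2
      · intro a
        rfl
      · intro b
        rfl
  · intro Z Z' _ _ _ _ Λ Λ' _ _ _ _ ι t ι' t' e p p' η M M' _ _ _ _ _ _ _ _ ψ
    exact phi_second Z Z' Λ Λ' ι t ι' t' e p p' η M M' ψ

end Pool.Agent.V5helper50.CM
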