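import Pool.Agent.V5helper32.CM.Stm2

/-!
# Project CM, job SPAN: surjectivity in the PBW theorem
-/

set_option autoImplicit false

namespace Pool.Agent.V5helper50.CM

open MvPolynomial Pool.Agent.V5helper32.CM
open scoped TensorProduct

section

variable {n : ℕ} {W : Type} [Group W] [Fintype W] {ρ : W →* Gl n} {c : W → ℂ} {H : Type} [Ring H]
  [Algebra ℂ H] (R : ChRel ρ c H) (i j : MvPolynomial (Fin n) ℂ →ₐ[ℂ] H)

theorem act_C {m : ℕ} (g : Gl m) (z : ℂ) : act g (C z) = C z := by
  have := (act g).commutes z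
  exact this

theorem span_ui (hi : ∀ a, i (X a) = R.x a) (w : W) (f : MvPolynomial (Fin n) ℂ) :
    R.u w * i f = i (act (ρ w) f) * R.u w := by
  induction f using MvPolynomial.induction_on with
  | C z =>
    rw [act_C]
    have h1 : i (C z) = algebraMap ℂ H z := i.commutes z
    rw [h1, Algebra.commutes]
  | add f g hf hg => rw [map_add, map_add, map_add, mul_add, add_mul, hf, hg]
  | mul_X f a hf =>
    rw [map_mul, map_mul, map_mul, ← mul_assoc, hf, mul_assoc, hi, R.ux, mul_assoc]
    congr 2
    unfold act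
    rw [aeval_X, map_sum]
    refine Finset.sum_congr rfl fun b _ => ?_
    rw [map_mul, hi]
    have h1 : i (C (((ρ w)⁻¹).val a b)) = algebraMap ℂ H (((ρ w)⁻¹).val a b) := i.commutes _
    rw [h1, Algebra.smul_def]

theorem span_uj (hj : ∀ a, j (X a) = R.y a) (w : W) (f : MvPolynomial (Fin n) ℂ) :
    R.u w * j f = j (act (dualG (ρ w)) f) * R.u w := by
  induction f using MvPolynomial.induction_on with
  | C z =>
    rw [act_C]
    have h1 : j (C z) = algebraMap ℂ H z := j.commutes z
    rw [h1, Algebra.commutes]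
  | add f g hf hg => rw [map_add, map_add, map_add, mul_add, add_mul, hf, hg]
  | mul_X f a hf =>
    rw [map_mul, map_mul, map_mul, ← mul_assoc, hf, mul_assoc, hj, R.uy, mul_assoc]
    congr 2
    unfold act
    rw [aeval_X, map_sum]
    refine Finset.sum_congr rfl fun b _ => ?_
    rw [map_mul, hj]
    have h2 : ((dualG (ρ w))⁻¹).val a b = (ρ w).val b a := rfl
    rw [h2]
    have h1 : j (C ((ρ w).val b a)) = algebraMap ℂ H ((ρ w).val b a) := j.commutes _
    rw [h1, Algebra.smul_def]

/-- the span of the `i f * u w` -/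
def KK (i : MvPolynomial (Fin n) ℂ →ₐ[ℂ] H) (u : W →* H) : Submodule ℂ H :=
  Submodule.span ℂ {h | ∃ f w, h = i f * u w}

/-- the span of the `i f * u w * j g` -/
def TT (i j : MvPolynomial (Fin n) ℂ →ₐ[ℂ] H) (u : W →* H) : Submodule ℂ H :=
  Submodule.span ℂ {h | ∃ f w g, h = i f * u w * j g}

theorem KK_x (hi : ∀ a, i (X a) = R.x a) (k : H) (hk : k ∈ KK i R.u) (b : Fin n) :
    k * i (X b) ∈ KK i R.u := by
  unfold KK at hk ⊢
  induction hk using Submodule.span_induction with
  | mem x hx =>
    obtain ⟨f, w, rfl⟩ := hx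
    rw [mul_assoc, span_ui R i hi, ← mul_assoc, ← map_mul]
    exact Submodule.subset_span ⟨_, w, rfl⟩
  | zero => rw [zero_mul]; exact Submodule.zero_mem _
  | add x y _ _ hx hy => rw [add_mul]; exact Submodule.add_mem _ hx hy
  | smul z x _ hx => rw [smul_mul_assoc]; exact Submodule.smul_mem _ _ hx

theorem KK_left (k : H) (hk : k ∈ KK i R.u) (f : MvPolynomial (Fin n) ℂ) :
    i f * k ∈ KK i R.u := by
  unfold KK at hk ⊢
  induction hk using Submodule.span_induction with
  | mem x hx =>
    obtain ⟨g, w, rfl⟩ := hx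
    rw [← mul_assoc, ← map_mul]
    exact Submodule.subset_span ⟨_, w, rfl⟩
  | zero => rw [mul_zero]; exact Submodule.zero_mem _
  | add x y _ _ hx hy => rw [mul_add]; exact Submodule.add_mem _ hx hy
  | smul z x _ hx => rw [mul_smul_comm]; exact Submodule.smul_mem _ _ hx

theorem KK_TT (k : H) (hk : k ∈ KK i R.u) (w : W) (g : MvPolynomial (Fin n) ℂ) :
    k * R.u w * j g ∈ TT i j R.u := by
  unfold KK at hk
  unfold TT
  induction hk using Submodule.span_induction with
  | mem x hx =>
    obtain ⟨f, v, rfl⟩ := hx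
    rw [mul_assoc (i f), ← map_mul]
    exact Submodule.subset_span ⟨_, _, _, rfl⟩
  | zero => rw [zero_mul, zero_mul]; exact Submodule.zero_mem _
  | add x y _ _ hx hy => rw [add_mul, add_mul]; exact Submodule.add_mem _ hx hy
  | smul z x _ hx => rw [smul_mul_assoc, smul_mul_assoc]; exact Submodule.smul_mem _ _ hx

theorem comm_y (hi : ∀ a, i (X a) = R.x a) (a : Fin n) (f : MvPolynomial (Fin n) ℂ) :
    R.y a * i f - i f * R.y a ∈ KK i R.u := by
  induction f using MvPolynomial.induction_on with
  | C z =>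
    have h1 : i (C z) = algebraMap ℂ H z := i.commutes z
    rw [h1, Algebra.commutes, sub_self]
    exact Submodule.zero_mem _
  | add f g hf hg =>
    have h1 : R.y a * i (f + g) - i (f + g) * R.y a =
        (R.y a * i f - i f * R.y a) + (R.y a * i g - i g * R.y a) := by
      rw [map_add]
      noncomm_ring
    rw [h1]
    exact Submodule.add_mem _ hf hg
  | mul_X f b hf =>
    have h1 : R.y a * i (f * X b) - i (f * X b) * R.y a =
        (R.y a * i f - i f * R.y a) * i (X b) + i f * (R.y a * R.x b - R.x b * R.y a) := by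
      rw [map_mul, hi]
      noncomm_ring
    rw [h1]
    refine Submodule.add_mem _ (KK_x R i hi _ hf b) (KK_left R i _ ?_ f)
    rw [R.yx]
    refine Submodule.sum_mem _ fun w _ => Submodule.smul_mem _ _ (Submodule.subset_span ?_)
    exact ⟨1, w, by rw [map_one, one_mul]⟩

theorem TT_left_of (h : H)
    (hh : ∀ f w g, h * (i f * R.u w * j g) ∈ TT i j R.u) (t : H) (ht : t ∈ TT i j R.u) :
    h * t ∈ TT i j R.u := by
  unfold TT at ht
  induction ht using Submodule.span_induction with
  | mem x hx =>
    obtain ⟨f, w, g, rfl⟩ := hx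
    exact hh f w g
  | zero => rw [mul_zero]; exact Submodule.zero_mem _
  | add x y _ _ hx hy => rw [mul_add]; exact Submodule.add_mem _ hx hy
  | smul z x _ hx => rw [mul_smul_comm]; exact Submodule.smul_mem _ _ hx

theorem TT_top (hi : ∀ a, i (X a) = R.x a) (hj : ∀ a, j (X a) = R.y a)
    (hg : Algebra.adjoin ℂ (Set.range R.x ∪ Set.range R.y ∪ Set.range R.u) = ⊤) (h : H) :
    h ∈ TT i j R.u := by
  have h1 : (1 : H) ∈ TT i j R.u :=
    Submodule.subset_span ⟨1, 1, 1, by rw [map_one, map_one, map_one, one_mul, one_mul]⟩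
  have h2 : ∀ h ∈ Algebra.adjoin ℂ (Set.range R.x ∪ Set.range R.y ∪ Set.range R.u),
      ∀ t ∈ TT i j R.u, h * t ∈ TT i j R.u := by
    intro h hh
    induction hh using Algebra.adjoin_induction with
    | mem x hx =>
      rcases hx with (⟨a, rfl⟩ | ⟨a, rfl⟩) | ⟨w', rfl⟩
      · refine TT_left_of R i j _ fun f w g => Submodule.subset_span ⟨X a * f, w, g, ?_⟩
        rw [map_mul, hi]
        noncomm_ring
      · refine TT_left_of R i j _ fun f w g => ?_
        have e1 : R.y a * (i f * R.u w * j g) = (R.y a * i f - i f * R.y a) * R.u w * j g +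
            i f * (j (X a) * R.u w) * j g := by
          rw [hj]
          noncomm_ring
        rw [e1]
        refine Submodule.add_mem _ (KK_TT R i j _ (comm_y R i hi a f) w g) ?_
        have e2 : j (X a) * R.u w = R.u w * j (act (dualG (ρ w⁻¹)) (X a)) := by
          have e3 := span_uj R j hj w⁻¹ (X a)
          calc j (X a) * R.u w = R.u w * (R.u w⁻¹ * j (X a)) * R.u w := by
                rw [← mul_assoc (R.u w), ← map_mul, mul_inv_cancel, map_one, one_mul]
            _ = R.u w * j (act (dualG (ρ w⁻¹)) (X a)) * (R.u w⁻¹ * R.u w) := by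
                rw [e3]
                noncomm_ring
            _ = _ := by rw [← map_mul, inv_mul_cancel, map_one, mul_one]
        rw [e2]
        refine Submodule.subset_span ⟨f, w, act (dualG (ρ w⁻¹)) (X a) * g, ?_⟩
        rw [map_mul]
        noncomm_ring
      · refine TT_left_of R i j _ fun f w g =>
          Submodule.subset_span ⟨act (ρ w') f, w' * w, g, ?_⟩
        rw [map_mul, ← mul_assoc, ← mul_assoc, span_ui R i hi]
        noncomm_ring
    | algebraMap r =>
      intro t ht
      rw [← Algebra.smul_def]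
      exact Submodule.smul_mem _ _ ht
    | add x y _ _ hx hy =>
      intro t ht
      rw [add_mul]
      exact Submodule.add_mem _ (hx t ht) (hy t ht)
    | mul x y _ _ hx hy =>
      intro t ht
      rw [mul_assoc]
      exact hx _ (hy t ht)
  have h3 := h2 h (by rw [hg]; trivial) 1 h1
  rwa [mul_one] at h3

end

theorem t_SPAN : S_SPAN := by
  intro n W _ _ ρ c H _ _ R i j hi hj hg
  refine ⟨span_ui R i hi, span_uj R j hj, ?_⟩
  classical
  -- the linear map
  let L : (W → MvPolynomial (Fin n) ℂ ⊗[ℂ] MvPolynomial (Fin n) ℂ) →ₗ[ℂ] H :=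
    ∑ w, mu i j R.u w ∘ₗ LinearMap.proj w
  have hL : ∀ q, L q = ∑ w, mu i j R.u w (q w) := by
    intro q
    simp [L]
  intro h
  have h1 : TT i j R.u ≤ LinearMap.range L := by
    unfold TT
    rw [Submodule.span_le]
    rintro _ ⟨f, w, g, rfl⟩
    refine ⟨Pi.single w (f ⊗ₜ[ℂ] g), ?_⟩
    rw [hL, Finset.sum_eq_single w]
    · rw [Pi.single_eq_same]
      simp [mu]
    · intro v _ hv
      rw [Pi.single_eq_of_ne hv, map_zero]
    · intro h
      exact (h (Finset.mem_univ w)).elim
  obtain ⟨q, hq⟩ := h1 (TT_top R i j hi hj hg h)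
  exact ⟨q, by rw [← hq, hL]⟩

end Pool.Agent.V5helper50.CM
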