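import Pool.Agent.V5helper32.CM.Stm2

/-!
# Project CM, job DK2: the Dunkl representation
-/

set_option autoImplicit false

namespace Pool.Agent.V5helper50.CM.DK

open MvPolynomial Pool.Agent.V5helper32.CM

/-- a matrix of rank one is `β αᵀ` -/
theorem rank_one {n : ℕ} (M : Matrix (Fin n) (Fin n) ℂ) (h : M.rank = 1) :
    ∃ α β : Fin n → ℂ, (M = Matrix.of fun p q => β p * α q) ∧ α ≠ 0 ∧ β ≠ 0 := by
  have h1 : Module.finrank ℂ (LinearMap.range M.mulVecLin) = 1 := h
  obtain ⟨⟨β, hβ⟩, hβ0, hβ1⟩ := finrank_eq_one_iff'.1 h1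
  have h2 : ∀ q, ∃ a : ℂ, a • β = M.mulVec (Pi.single q 1) := by
    intro q
    obtain ⟨a, ha⟩ := hβ1 ⟨M.mulVec (Pi.single q 1), ⟨Pi.single q 1, rfl⟩⟩
    exact ⟨a, congrArg Subtype.val ha⟩
  choose α hα using h2
  have h3 : M = Matrix.of fun p q => β p * α q := by
    ext p q
    have h4 := congrFun (hα q) p
    rw [Matrix.mulVec_single_one] at h4
    rw [Matrix.of_apply, mul_comm]
    exact h4.symm
  have hM : M ≠ 0 := by
    rintro rfl
    rw [Matrix.rank_zero] at h
    exact absurd h (by norm_num)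
  refine ⟨α, β, h3, ?_, ?_⟩
  · rintro rfl
    apply hM
    rw [h3]
    ext p q
    simp
  · rintro rfl
    apply hM
    rw [h3]
    ext p q
    simp

section act

variable {n : ℕ}

theorem act_X (g : Gl n) (a : Fin n) : act g (X a) = ∑ b, C ((g⁻¹).val a b) * X b := by
  unfold act
  rw [aeval_X]

theorem act_one : act (1 : Gl n) = AlgHom.id ℂ _ := by
  apply MvPolynomial.algHom_ext
  intro a
  rw [act_X, inv_one, AlgHom.id_apply]
  rw [Finset.sum_eq_single a]
  · simp
  · intro b _ hb
    rw [Units.val_one, Matrix.one_apply_ne hb.symm, C_0, zero_mul]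
  · intro h
    exact (h (Finset.mem_univ a)).elim

theorem act_mul (g h : Gl n) : act (g * h) = (act g).comp (act h) := by
  apply MvPolynomial.algHom_ext
  intro a
  rw [AlgHom.comp_apply, act_X, act_X, map_sum, mul_inv_rev]
  have h1 : ∀ b, act g (C ((h⁻¹).val a b) * X b) =
      ∑ k, C ((h⁻¹).val a b * (g⁻¹).val b k) * X k := by
    intro b
    have h2 : act g (C ((h⁻¹).val a b)) = C ((h⁻¹).val a b) := (act g).commutes _
    rw [map_mul, h2, act_X, Finset.mul_sum]
    refine Finset.sum_congr rfl fun k _ => ?_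
    rw [C_mul, mul_assoc]
  simp only [h1]
  rw [Finset.sum_comm]
  refine Finset.sum_congr rfl fun k _ => ?_
  rw [Units.val_mul, Matrix.mul_apply, map_sum, Finset.sum_mul]

theorem act_inj (g : Gl n) : Function.Injective (act g) := by
  have h1 : (act g⁻¹).comp (act g) = AlgHom.id ℂ _ := by
    rw [← act_mul, inv_mul_cancel, act_one]
  intro a b hab
  have h2 := congrArg (act g⁻¹) hab
  have h3 : ∀ x, act g⁻¹ (act g x) = x := fun x => by
    have := AlgHom.congr_fun h1 x
    simpa using this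
  rwa [h3, h3] at h2

/-- the embedding of the polynomials in the rational functions -/
noncomputable def emb (n : ℕ) : MvPolynomial (Fin n) ℂ →ₐ[ℂ] Kf n :=
  IsScalarTower.toAlgHom ℂ (MvPolynomial (Fin n) ℂ) (Kf n)

theorem emb_apply (f : MvPolynomial (Fin n) ℂ) :
    emb n f = algebraMap (MvPolynomial (Fin n) ℂ) (Kf n) f := rfl

theorem emb_inj : Function.Injective (emb n) := IsFractionRing.injective _ _

theorem hinj (g : Gl n) : Function.Injective ((emb n).comp (act g)) :=
  fun _ _ h => act_inj g (emb_inj h)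

/-- the action on rational functions -/
noncomputable def kap (g : Gl n) : Kf n →ₐ[ℂ] Kf n :=
  IsFractionRing.liftAlgHom (g := (emb n).comp (act g)) (hinj g)

theorem kap_emb (g : Gl n) (f : MvPolynomial (Fin n) ℂ) : kap g (emb n f) = emb n (act g f) := by
  unfold kap
  rw [IsFractionRing.liftAlgHom_apply]
  exact IsFractionRing.lift_algebraMap (g := ((emb n).comp (act g)).toRingHom) (hinj g) f

theorem kap_ext (φ ψ : Kf n →ₐ[ℂ] Kf n) (h : ∀ f, φ (emb n f) = ψ (emb n f)) : φ = ψ := by
  refine AlgHom.ext fun k => ?_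
  obtain ⟨a, b, hb, rfl⟩ := IsFractionRing.div_surjective (A := MvPolynomial (Fin n) ℂ) k
  have h1 := h a
  have h2 := h b
  rw [emb_apply] at h1 h2
  rw [map_div₀, map_div₀, h1, h2]

theorem kap_one : kap (1 : Gl n) = AlgHom.id ℂ _ := by
  apply kap_ext
  intro f
  rw [kap_emb, act_one]
  rfl

theorem kap_mul (g h : Gl n) : kap (g * h) = (kap g).comp (kap h) := by
  apply kap_ext
  intro f
  rw [kap_emb, act_mul, AlgHom.comp_apply, AlgHom.comp_apply, kap_emb, kap_emb]

/-- constants in `Un n` -/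
noncomputable def cc (n : ℕ) : Kf n →ₐ[ℂ] Un n := IsScalarTower.toAlgHom ℂ (Kf n) (Un n)

theorem cc_apply (k : Kf n) : cc n k = C k := rfl

/-- the automorphisms of `Un n` as ring homomorphisms -/
noncomputable def er (g : Gl n) : Un n →+* Un n :=
  MvPolynomial.eval₂Hom ((C : Kf n →+* Un n).comp (kap g).toRingHom)
    fun a => ∑ b, C (algebraMap ℂ (Kf n) (g.val b a)) * X b

theorem er_C (g : Gl n) (k : Kf n) : er g (C k) = C (kap g k) := by
  unfold er
  rw [coe_eval₂Hom, eval₂_C]
  rfl

theorem er_X (g : Gl n) (a : Fin n) :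
    er g (X a) = ∑ b, C (algebraMap ℂ (Kf n) (g.val b a)) * X b := by
  unfold er
  rw [coe_eval₂Hom, eval₂_X]

theorem algMap_Un (z : ℂ) : algebraMap ℂ (Un n) z = C (algebraMap ℂ (Kf n) z) := rfl

theorem er_one : er (1 : Gl n) = RingHom.id _ := by
  apply MvPolynomial.ringHom_ext
  · intro k
    rw [er_C, kap_one]
    rfl
  · intro a
    rw [er_X, RingHom.id_apply, Finset.sum_eq_single a]
    · simp
    · intro b _ hb
      rw [Units.val_one, Matrix.one_apply_ne hb, map_zero, C_0, zero_mul]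
    · intro h
      exact (h (Finset.mem_univ a)).elim

theorem er_mul (g h : Gl n) : er (g * h) = (er g).comp (er h) := by
  apply MvPolynomial.ringHom_ext
  · intro k
    rw [er_C, RingHom.comp_apply, er_C, er_C, kap_mul]
    rfl
  · intro a
    rw [er_X, RingHom.comp_apply, er_X, map_sum]
    have h1 : ∀ b, er g (C (algebraMap ℂ (Kf n) (h.val b a)) * X b) =
        ∑ k, C (algebraMap ℂ (Kf n) (g.val k b * h.val b a)) * X k := by
      intro b
      rw [map_mul, er_C, AlgHom.commutes, er_X, Finset.mul_sum]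
      refine Finset.sum_congr rfl fun k _ => ?_
      rw [map_mul, C_mul]
      ring
    simp only [h1]
    rw [Finset.sum_comm]
    refine Finset.sum_congr rfl fun k _ => ?_
    rw [Units.val_mul, Matrix.mul_apply, map_sum, map_sum, Finset.sum_mul]

/-- the automorphisms of `Un n` -/
noncomputable def ea (g : Gl n) : Un n →ₐ[ℂ] Un n :=
  { er g with
    commutes' := by
      intro z
      change er g (algebraMap ℂ (Un n) z) = algebraMap ℂ (Un n) z
      rw [algMap_Un, er_C, AlgHom.commutes] }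

theorem ea_apply (g : Gl n) (f : Un n) : ea g f = er g f := rfl

theorem ea_one : ea (1 : Gl n) = AlgHom.id ℂ _ := by
  refine AlgHom.ext fun f => ?_
  rw [ea_apply, er_one]
  rfl

theorem ea_mul (g h : Gl n) : ea (g * h) = (ea g).comp (ea h) := by
  refine AlgHom.ext fun f => ?_
  rw [ea_apply, er_mul]
  rfl

variable {W : Type} [Group W] (ρ : W →* Gl n)

/-- the automorphisms of `Un n` as a homomorphism -/
noncomputable def ee : W →* (Un n ≃ₐ[ℂ] Un n) where
  toFun w := AlgEquiv.ofAlgHom (ea (ρ w)) (ea (ρ w⁻¹))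
    (by rw [← ea_mul, ← map_mul, mul_inv_cancel, map_one, ea_one])
    (by rw [← ea_mul, ← map_mul, inv_mul_cancel, map_one, ea_one])
  map_one' := by
    refine AlgEquiv.ext fun f => ?_
    change ea (ρ 1) f = f
    rw [map_one, ea_one]
    rfl
  map_mul' w v := by
    refine AlgEquiv.ext fun f => ?_
    change ea (ρ (w * v)) f = ea (ρ w) (ea (ρ v) f)
    rw [map_mul, ea_mul]
    rfl

theorem ee_C (w : W) (k : Kf n) : ee ρ w (C k) = C (kap (ρ w) k) := er_C _ _

theorem ee_X (w : W) (a : Fin n) :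
    ee ρ w (X a) = ∑ b, C (algebraMap ℂ (Kf n) ((ρ w).val b a)) * X b := er_X _ _

/-- multiplication operators -/
noncomputable def mm (n : ℕ) : Un n →ₐ[ℂ] Module.End ℂ (Un n) := Algebra.lmul ℂ (Un n)

theorem mm_apply (f g : Un n) : mm n f g = f * g := rfl

/-- the operators `E w` -/
noncomputable def EW (w : W) : Module.End ℂ (Un n) := (ee ρ w).toLinearMap

theorem EW_apply (w : W) (f : Un n) : EW ρ w f = ee ρ w f := rfl

theorem EW_mul (w v : W) : EW ρ (w * v) = EW ρ w * EW ρ v := by
  refine LinearMap.ext fun f => ?_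
  rw [Module.End.mul_apply, EW_apply, EW_apply, EW_apply, map_mul]
  rfl

theorem EW_mm (w : W) (f : Un n) : EW ρ w * mm n f = mm n (ee ρ w f) * EW ρ w := by
  refine LinearMap.ext fun g => ?_
  rw [Module.End.mul_apply, Module.End.mul_apply, EW_apply, EW_apply, mm_apply, mm_apply, map_mul]

theorem EW_mmC (w : W) (k : Kf n) :
    EW ρ w * mm n (C k) = mm n (C (kap (ρ w) k)) * EW ρ w := by
  rw [EW_mm, ee_C]

/-- the linear forms in `Kf n` -/
noncomputable def lin (α : Fin n → ℂ) : Kf n :=
  emb n (∑ l, C (α l) * X l)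

theorem lin_ne (α : Fin n → ℂ) (h : α ≠ 0) : lin α ≠ 0 := by
  unfold lin
  intro h0
  apply h
  have h1 : (∑ l, C (α l) * X l : MvPolynomial (Fin n) ℂ) = 0 := by
    apply emb_inj
    rw [h0, map_zero]
  ext a
  have h2 := congrArg (fun f => MvPolynomial.eval (Pi.single a (1 : ℂ)) f) h1
  simp only [map_sum, map_mul, eval_C, eval_X, map_zero] at h2
  rw [Finset.sum_eq_single a] at h2
  · simpa using h2
  · intro b _ hb
    rw [Pi.single_eq_of_ne hb, mul_zero]
  · intro h
    exact (h (Finset.mem_univ a)).elim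

theorem lin_smul (μ : ℂ) (α : Fin n → ℂ) :
    lin (fun l => μ * α l) = algebraMap ℂ (Kf n) μ * lin α := by
  unfold lin
  rw [← Algebra.smul_def, ← map_smul, Finset.smul_sum]
  congr 1
  refine Finset.sum_congr rfl fun l _ => ?_
  rw [C_mul, smul_eq_C_mul, mul_assoc]

theorem kap_lin (g : Gl n) (α : Fin n → ℂ) :
    kap g (lin α) = lin fun j => ∑ l, α l * (g⁻¹).val l j := by
  unfold lin
  rw [kap_emb, map_sum]
  congr 1
  have h1 : ∀ l, act g (C (α l) * X l) = ∑ j, C (α l * (g⁻¹).val l j) * X j := by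
    intro l
    have h2 : act g (C (α l)) = C (α l) := (act g).commutes _
    rw [map_mul, h2, act_X, Finset.mul_sum]
    refine Finset.sum_congr rfl fun k _ => ?_
    rw [C_mul, mul_assoc]
  simp only [h1]
  rw [Finset.sum_comm]
  refine Finset.sum_congr rfl fun j _ => ?_
  rw [map_sum, Finset.sum_mul]

end act

section dunkl

variable {n : ℕ} {W : Type} [Group W] [Fintype W] (ρ : W →* Gl n) (c : W → ℂ)
  (α β : W → Fin n → ℂ)

/-- the coefficients of the Dunkl operators -/
noncomputable def AA (s : W) (a : Fin n) : Kf n :=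
  algebraMap ℂ (Kf n) (c s * α s a) * (lin (α s))⁻¹

/-- the hypotheses on `α`, `β` -/
structure Hyp : Prop where
  cls : ∀ w w', c (w * w' * w⁻¹) = c w'
  rk : ∀ s, c s ≠ 0 → (ρ s).val - 1 = Matrix.of fun p q => β s p * α s q
  α0 : ∀ s, c s ≠ 0 → α s ≠ 0
  β0 : ∀ s, c s ≠ 0 → β s ≠ 0

variable {ρ c α β}

theorem AA_zero (s : W) (hs : c s = 0) (a : Fin n) : AA c α s a = 0 := by
  unfold AA
  rw [hs, zero_mul, map_zero, zero_mul]

theorem AA_symm (s : W) (a b : Fin n) :
    AA c α s a * algebraMap ℂ (Kf n) (α s b) = AA c α s b * algebraMap ℂ (Kf n) (α s a) := by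
  unfold AA
  rw [map_mul, map_mul]
  ring

/-- the action of `w` on `A_s` -/
theorem kap_AA (H : Hyp ρ c α β) (w s : W) (a : Fin n) :
    kap (ρ w) (AA c α s a) =
      ∑ b, algebraMap ℂ (Kf n) ((ρ w).val b a) * AA c α (w * s * w⁻¹) b := by
  by_cases hs : c s = 0
  · rw [AA_zero s hs, map_zero]
    refine (Finset.sum_eq_zero fun b _ => ?_).symm
    rw [AA_zero (w * s * w⁻¹) (by rw [H.cls]; exact hs), mul_zero]
  · have hs' : c (w * s * w⁻¹) ≠ 0 := by rw [H.cls]; exact hs
    set s' := w * s * w⁻¹ with hs'def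
    -- the form `α'`
    set α' : Fin n → ℂ := fun j => ∑ l, α s l * ((ρ w)⁻¹).val l j with hα'
    have e1 : (ρ s').val - 1 = (ρ w).val * ((ρ s).val - 1) * ((ρ w)⁻¹).val := by
      rw [mul_sub, sub_mul, mul_one, ← Units.val_mul, ← Units.val_mul, ← Units.val_mul,
        mul_inv_cancel, Units.val_one, hs'def, map_mul, map_mul, map_inv]
    have e2 : ∀ p q, β s' p * α s' q = (∑ k, (ρ w).val p k * β s k) * α' q := by
      intro p q
      have h1 := congrFun (congrFun e1 p) q
      rw [H.rk s' hs', H.rk s hs] at h1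
      rw [Matrix.of_apply] at h1
      rw [h1, Matrix.mul_apply, hα', Finset.mul_sum]
      refine Finset.sum_congr rfl fun l _ => ?_
      rw [Matrix.mul_apply, Finset.sum_mul, Finset.sum_mul]
      refine Finset.sum_congr rfl fun k _ => ?_
      rw [Matrix.of_apply]
      ring
    obtain ⟨p, hp⟩ := Function.ne_iff.1 (H.β0 s' hs')
    rw [Pi.zero_apply] at hp
    set μ : ℂ := (∑ k, (ρ w).val p k * β s k) / β s' p with hμ
    have e3 : ∀ q, α s' q = μ * α' q := by
      intro q
      have h1 := e2 p q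
      rw [hμ, div_mul_eq_mul_div, ← h1]
      field_simp
    have hμ0 : μ ≠ 0 := by
      intro h0
      apply H.α0 s' hs'
      ext q
      rw [e3, h0, zero_mul]
      rfl
    have hα'0 : α' ≠ 0 := by
      intro h0
      apply H.α0 s' hs'
      ext q
      rw [e3, h0]
      simp
    have hl : lin (α s') = algebraMap ℂ (Kf n) μ * lin α' := by
      rw [← lin_smul]
      congr 1
      ext q
      exact e3 q
    have hμ1 : algebraMap ℂ (Kf n) μ ≠ 0 := by
      rw [Ne, map_eq_zero_iff _ (algebraMap ℂ (Kf n)).injective]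
      exact hμ0
    have hl0 : lin α' ≠ 0 := lin_ne _ hα'0
    have e4 : ∀ b, AA c α s' b = algebraMap ℂ (Kf n) (c s * α' b) * (lin α')⁻¹ := by
      intro b
      unfold AA
      rw [hl, e3, hs'def, H.cls, map_mul, map_mul, map_mul]
      field_simp
    have e5 : kap (ρ w) (AA c α s a) = algebraMap ℂ (Kf n) (c s * α s a) * (lin α')⁻¹ := by
      unfold AA
      rw [map_mul, AlgHom.commutes, map_inv₀, kap_lin]
    rw [e5]
    have e6 : α s a = ∑ b, (ρ w).val b a * α' b := by
      have h1 : (((ρ w)⁻¹).val * (ρ w).val) = 1 := by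
        rw [← Units.val_mul, inv_mul_cancel, Units.val_one]
      rw [hα']
      simp only [Finset.mul_sum]
      rw [Finset.sum_comm]
      have h2 : ∀ l, ∑ b, (ρ w).val b a * (α s l * ((ρ w)⁻¹).val l b) =
          α s l * (1 : Matrix (Fin n) (Fin n) ℂ) l a := by
        intro l
        rw [← h1, Matrix.mul_apply, Finset.mul_sum]
        refine Finset.sum_congr rfl fun b _ => ?_
        ring
      simp only [h2]
      rw [Finset.sum_eq_single a]
      · rw [Matrix.one_apply_eq, mul_one]
      · intro l _ hl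
        rw [Matrix.one_apply_ne hl, mul_zero]
      · intro h
        exact (h (Finset.mem_univ a)).elim
    simp only [e4]
    rw [e6, Finset.mul_sum, map_sum, Finset.sum_mul]
    refine Finset.sum_congr rfl fun b _ => ?_
    rw [map_mul, map_mul, map_mul]
    ring

variable (ρ c α) in
/-- the operators `T_a` -/
noncomputable def TA (a : Fin n) : Module.End ℂ (Un n) :=
  ∑ s, mm n (C (AA c α s a)) * EW ρ s

theorem ux_aux (w : W) (a : Fin n) :
    kap (ρ w) (emb n (X a)) = ∑ b, algebraMap ℂ (Kf n) (((ρ w)⁻¹).val a b) * emb n (X b) := by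
  rw [kap_emb, act_X, map_sum]
  refine Finset.sum_congr rfl fun b _ => ?_
  rw [map_mul]
  congr 1

theorem smul_mm (z : ℂ) (f : Un n) : z • mm n f = mm n (algebraMap ℂ (Un n) z * f) := by
  rw [← Algebra.smul_def, map_smul]

theorem mmC_mul (x y : Kf n) : mm n (C (x * y)) = mm n (C x) * mm n (C y) := by
  rw [C_mul, map_mul]

/-- the relation `u y = (..) u` for the `T_a` -/
theorem uT (H : Hyp ρ c α β) (w : W) (a : Fin n) :
    EW ρ w * TA ρ c α a = (∑ b, (ρ w).val b a • TA ρ c α b) * EW ρ w := by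
  have h1 : EW ρ w * TA ρ c α a =
      ∑ s, mm n (C (kap (ρ w) (AA c α s a))) * EW ρ (w * s) := by
    unfold TA
    rw [Finset.mul_sum]
    refine Finset.sum_congr rfl fun s _ => ?_
    rw [← mul_assoc, EW_mmC, mul_assoc, ← EW_mul]
  have h2 : (∑ b, (ρ w).val b a • TA ρ c α b) * EW ρ w =
      ∑ s', mm n (C (∑ b, algebraMap ℂ (Kf n) ((ρ w).val b a) * AA c α s' b)) *
        EW ρ (s' * w) := by
    unfold TA
    rw [Finset.sum_mul]
    simp only [Finset.smul_sum, Finset.sum_mul]
    rw [Finset.sum_comm]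
    refine Finset.sum_congr rfl fun s _ => ?_
    rw [map_sum, map_sum, Finset.sum_mul]
    refine Finset.sum_congr rfl fun b _ => ?_
    rw [smul_mul_assoc, mul_assoc, ← EW_mul, ← smul_mul_assoc, smul_mm, algMap_Un, C_mul]
  rw [h1, h2]
  refine Fintype.sum_equiv (MulAut.conj w).toEquiv _ _ fun s => ?_
  have h3 : (MulAut.conj w).toEquiv s = w * s * w⁻¹ := rfl
  rw [h3, kap_AA H, inv_mul_cancel_right]

/-- the commutator of `T_a` with `x_b` -/
theorem Tx (H : Hyp ρ c α β) (a b : Fin n) :
    TA ρ c α a * mm n (C (emb n (X b))) = mm n (C (emb n (X b))) * TA ρ c α a +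
      ∑ w, (c w * (((ρ w)⁻¹).val b a - (1 : Matrix (Fin n) (Fin n) ℂ) b a)) • EW ρ w := by
  unfold TA
  rw [Finset.sum_mul, Finset.mul_sum, ← Finset.sum_add_distrib]
  refine Finset.sum_congr rfl fun s _ => ?_
  rw [mul_assoc, EW_mmC, ← mul_assoc, ← mul_assoc, ← mmC_mul, ← mmC_mul]
  by_cases hs : c s = 0
  · rw [AA_zero s hs, hs, zero_mul, mul_zero, C_0, map_zero, zero_mul, zero_mul, zero_smul,
      add_zero]
  · have h1 : ((ρ s)⁻¹).val - 1 = - (((ρ s)⁻¹).val * ((ρ s).val - 1)) := by
      rw [mul_sub, mul_one, ← Units.val_mul, inv_mul_cancel, Units.val_one]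
      abel
    have h2 : ∀ p q, ((ρ s)⁻¹).val p q - (1 : Matrix (Fin n) (Fin n) ℂ) p q =
        (-∑ k, ((ρ s)⁻¹).val p k * β s k) * α s q := by
      intro p q
      have h3 := congrFun (congrFun h1 p) q
      rw [H.rk s hs] at h3
      rw [Matrix.sub_apply] at h3
      rw [h3, Matrix.neg_apply, Matrix.mul_apply, neg_mul, Finset.sum_mul]
      congr 1
      refine Finset.sum_congr rfl fun k _ => ?_
      rw [Matrix.of_apply]
      ring
    set β' : ℂ := -∑ k, ((ρ s)⁻¹).val b k * β s k with hβ'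
    have h4 : kap (ρ s) (emb n (X b)) = emb n (X b) + algebraMap ℂ (Kf n) β' * lin (α s) := by
      rw [ux_aux]
      unfold lin
      rw [map_sum, Finset.mul_sum]
      have h5 : emb n (X b) = ∑ k, algebraMap ℂ (Kf n) ((1 : Matrix (Fin n) (Fin n) ℂ) b k) *
          emb n (X k) := by
        rw [Finset.sum_eq_single b]
        · rw [Matrix.one_apply_eq, map_one, one_mul]
        · intro k _ hk
          rw [Matrix.one_apply_ne hk.symm, map_zero, zero_mul]
        · intro h
          exact (h (Finset.mem_univ b)).elim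
      rw [h5, ← Finset.sum_add_distrib]
      refine Finset.sum_congr rfl fun k _ => ?_
      have h6 : ((ρ s)⁻¹).val b k = (1 : Matrix (Fin n) (Fin n) ℂ) b k + β' * α s k := by
        rw [hβ', ← h2]
        ring
      have h7 : emb n (C (α s k) * X k) = algebraMap ℂ (Kf n) (α s k) * emb n (X k) := by
        rw [map_mul]
        congr 1
      rw [h6, h7, map_add, map_mul]
      ring
    have h8 : lin (α s) ≠ 0 := lin_ne _ (H.α0 s hs)
    have h9 : AA c α s a * kap (ρ s) (emb n (X b)) = emb n (X b) * AA c α s a +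
        algebraMap ℂ (Kf n) (c s * (β' * α s a)) := by
      rw [h4]
      unfold AA
      rw [map_mul, map_mul, map_mul]
      field_simp
    have h10 : mm n (C (algebraMap ℂ (Kf n) (c s * (β' * α s a)))) =
        (c s * (β' * α s a)) • (1 : Module.End ℂ (Un n)) := by
      rw [← algMap_Un, AlgHom.commutes, Algebra.algebraMap_eq_smul_one]
    rw [h9, h2, C_add, map_add, add_mul, h10, smul_mul_assoc, one_mul]

variable (α β) in
/-- the linear form attached to `s` -/
noncomputable def eta (s : W) : Un n := ∑ b, C (algebraMap ℂ (Kf n) (-β s b)) * X b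

/-- `X_a` and `T_b` -/
theorem XT (H : Hyp ρ c α β) (a b : Fin n) :
    mm n (X a) * TA ρ c α b = TA ρ c α b * mm n (X a) +
      ∑ s, mm n (C (AA c α s b * algebraMap ℂ (Kf n) (α s a)) * eta β s) * EW ρ s := by
  unfold TA
  rw [Finset.sum_mul, Finset.mul_sum, ← Finset.sum_add_distrib]
  refine Finset.sum_congr rfl fun s _ => ?_
  rw [mul_assoc (mm n (C _)), EW_mm, ← mul_assoc, ← mul_assoc, ← map_mul, ← map_mul, ← add_mul,
    ← map_add]
  refine congrArg (fun z => mm n z * EW ρ s) ?_
  by_cases hs : c s = 0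
  · rw [AA_zero s hs, zero_mul, C_0, mul_zero, zero_mul, zero_mul, add_zero]
  · have h2 : ∀ p q, (1 : Matrix (Fin n) (Fin n) ℂ) p q = (ρ s).val p q + -β s p * α s q := by
      intro p q
      have h3 := congrFun (congrFun (H.rk s hs) p) q
      rw [Matrix.sub_apply, Matrix.of_apply] at h3
      linear_combination -h3
    have h4 : (X a : Un n) = ee ρ s (X a) + C (algebraMap ℂ (Kf n) (α s a)) * eta β s := by
      unfold eta
      rw [ee_X, Finset.mul_sum, ← Finset.sum_add_distrib]
      have h5 : (X a : Un n) = ∑ b, C (algebraMap ℂ (Kf n)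
          ((1 : Matrix (Fin n) (Fin n) ℂ) b a)) * X b := by
        rw [Finset.sum_eq_single a]
        · rw [Matrix.one_apply_eq, map_one, C_1, one_mul]
        · intro k _ hk
          rw [Matrix.one_apply_ne hk, map_zero, C_0, zero_mul]
        · intro h
          exact (h (Finset.mem_univ a)).elim
      nth_rewrite 1 [h5]
      refine Finset.sum_congr rfl fun b _ => ?_
      rw [h2, map_add, C_add, map_mul, C_mul]
      ring
    nth_rewrite 1 [h4]
    rw [C_mul]
    ring

theorem XT' (H : Hyp ρ c α β) (a b : Fin n) :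
    mm n (X a) * TA ρ c α b + TA ρ c α a * mm n (X b) =
      mm n (X b) * TA ρ c α a + TA ρ c α b * mm n (X a) := by
  rw [XT H a b, XT H b a]
  have h1 : ∑ s, mm n (C (AA c α s b * algebraMap ℂ (Kf n) (α s a)) * eta β s) * EW ρ s =
      ∑ s, mm n (C (AA c α s a * algebraMap ℂ (Kf n) (α s b)) * eta β s) * EW ρ s := by
    refine Finset.sum_congr rfl fun s _ => ?_
    rw [AA_symm]
  rw [h1]
  abel

/-- `T_a` and `T_b` commute -/
theorem TT (hD : S_DK1) (hrk : ∀ s, c s ≠ 0 → ((ρ s).val - 1).rank = 1) (H : Hyp ρ c α β)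
    (a b : Fin n) : TA ρ c α a * TA ρ c α b = TA ρ c α b * TA ρ c α a := by
  classical
  have h3 : ∀ s r b, c s ≠ 0 → kap (ρ s) (AA c α (s⁻¹ * r * s) b) = AA c α r b +
      algebraMap ℂ (Kf n) (α s b) * ∑ l, algebraMap ℂ (Kf n) (β s l) * AA c α r l := by
    intro s r b hs
    rw [kap_AA H]
    have h4 : s * (s⁻¹ * r * s) * s⁻¹ = r := by group
    rw [h4]
    have h5 : AA c α r b = ∑ k, algebraMap ℂ (Kf n) ((1 : Matrix (Fin n) (Fin n) ℂ) k b) *
        AA c α r k := by
      rw [Finset.sum_eq_single b]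
      · rw [Matrix.one_apply_eq, map_one, one_mul]
      · intro k _ hk
        rw [Matrix.one_apply_ne hk, map_zero, zero_mul]
      · intro h
        exact (h (Finset.mem_univ b)).elim
    rw [h5, Finset.mul_sum, ← Finset.sum_add_distrib]
    refine Finset.sum_congr rfl fun k _ => ?_
    have h6 : (ρ s).val k b = (1 : Matrix (Fin n) (Fin n) ℂ) k b + β s k * α s b := by
      have h3 := congrFun (congrFun (H.rk s hs) k) b
      rw [Matrix.sub_apply, Matrix.of_apply] at h3
      linear_combination h3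
    rw [h6, map_add, map_mul]
    ring
  have h1 : ∀ a b, TA ρ c α a * TA ρ c α b =
      ∑ s, ∑ r, mm n (C (AA c α s a * kap (ρ s) (AA c α (s⁻¹ * r * s) b))) * EW ρ (r * s) := by
    intro a b
    unfold TA
    rw [Finset.sum_mul]
    refine Finset.sum_congr rfl fun s _ => ?_
    rw [Finset.mul_sum]
    symm
    refine Fintype.sum_equiv (MulAut.conj s⁻¹).toEquiv _ _ fun r => ?_
    have h2 : (MulAut.conj s⁻¹).toEquiv r = s⁻¹ * r * s := by
      change s⁻¹ * r * s⁻¹⁻¹ = _
      rw [inv_inv]
    have h2' : r * s = s * (s⁻¹ * r * s) := by group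
    rw [h2, h2', mmC_mul, EW_mul, mul_assoc, ← mul_assoc (mm n (C (kap (ρ s) _))), ← EW_mmC]
    simp only [mul_assoc]
  have h1' : ∀ a b, TA ρ c α a * TA ρ c α b =
      (∑ s, ∑ r, mm n (C (AA c α s a * AA c α r b)) * EW ρ (r * s)) +
      ∑ s, ∑ r, mm n (C (AA c α s a * algebraMap ℂ (Kf n) (α s b) *
        ∑ l, algebraMap ℂ (Kf n) (β s l) * AA c α r l)) * EW ρ (r * s) := by
    intro a b
    rw [h1, ← Finset.sum_add_distrib]
    refine Finset.sum_congr rfl fun s _ => ?_
    rw [← Finset.sum_add_distrib]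
    refine Finset.sum_congr rfl fun r _ => ?_
    rw [← add_mul, ← map_add, ← C_add]
    refine congrArg (fun z => mm n (C z) * EW ρ (r * s)) ?_
    by_cases hs : c s = 0
    · rw [AA_zero s hs]
      ring
    · rw [h3 s r b hs]
      ring
  have h9 : ∀ a b, ∑ s, ∑ r, mm n (C (AA c α s a * AA c α r b)) * EW ρ (r * s) =
        ∑ w, mm n (C (∑ s, ∑ r, if r * s = w then (AA c α s a * AA c α r b) else 0)) *
          EW ρ w := by
    intro a b
    simp only [map_sum, Finset.sum_mul]
    have h10 : ∀ s r, mm n (C (AA c α s a * AA c α r b)) * EW ρ (r * s) =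
        ∑ w, mm n (C (if r * s = w then (AA c α s a * AA c α r b) else 0)) * EW ρ w := by
      intro s r
      rw [Finset.sum_eq_single (r * s)]
      · rw [if_pos rfl]
      · intro w _ hw
        rw [if_neg (Ne.symm hw), C_0, map_zero, zero_mul]
      · intro h
        exact (h (Finset.mem_univ _)).elim
    simp only [h10]
    have h11 : ∀ s, ∑ r, ∑ w, mm n (C (if r * s = w then (AA c α s a * AA c α r b) else 0)) *
        EW ρ w = ∑ w, ∑ r, mm n (C (if r * s = w then (AA c α s a * AA c α r b) else 0)) *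
        EW ρ w := fun s => Finset.sum_comm
    simp only [h11]
    exact Finset.sum_comm
  have h11 : ∀ w, (∑ s, ∑ r, if r * s = w then (AA c α s a * AA c α r b) else 0) =
      ∑ s, ∑ r, if r * s = w then (AA c α s b * AA c α r a) else 0 := by
    intro w
    have h12 := hD n W ρ c ⟨H.cls, hrk⟩ α (fun s p => -∑ k, ((ρ s)⁻¹).val p k * β s k) (by
      intro s hs
      have h1 : ((ρ s)⁻¹).val - 1 = - (((ρ s)⁻¹).val * ((ρ s).val - 1)) := by
        rw [mul_sub, mul_one, ← Units.val_mul, inv_mul_cancel, Units.val_one]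
        abel
      rw [h1, H.rk s hs]
      ext p q
      rw [Matrix.neg_apply, Matrix.mul_apply, Matrix.of_apply, neg_mul, Finset.sum_mul]
      congr 1
      refine Finset.sum_congr rfl fun k _ => ?_
      rw [Matrix.of_apply]
      ring) w a b
    rw [← sub_eq_zero, ← Finset.sum_sub_distrib]
    refine Eq.trans ?_ h12
    refine Finset.sum_congr rfl fun s _ => ?_
    rw [← Finset.sum_sub_distrib]
    refine Finset.sum_congr rfl fun r _ => ?_
    by_cases h : r * s = w
    · rw [if_pos h, if_pos h, if_pos h]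
      unfold AA lin
      rw [emb_apply, emb_apply]
      simp only [map_mul, map_sub]
      ring
    · rw [if_neg h, if_neg h, if_neg h, sub_zero]
  rw [h1' a b, h1' b a, h9, h9]
  refine congrArg₂ (· + ·) ?_ ?_
  · refine Finset.sum_congr rfl fun w _ => ?_
    rw [h11]
  · refine Finset.sum_congr rfl fun s _ => Finset.sum_congr rfl fun r _ => ?_
    rw [AA_symm]

/-- **Job DK2**: the Dunkl representation. -/
theorem t_DK2 (hD : S_DK1) : S_DK2 := by
  intro n W _ _ ρ c hc
  have h1 : ∀ s, ∃ αβ : (Fin n → ℂ) × (Fin n → ℂ), c s ≠ 0 →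
      (((ρ s).val - 1 = Matrix.of fun p q => αβ.2 p * αβ.1 q) ∧ αβ.1 ≠ 0 ∧ αβ.2 ≠ 0) := by
    intro s
    by_cases hs : c s = 0
    · exact ⟨0, fun h => (h hs).elim⟩
    · obtain ⟨α, β, h⟩ := rank_one _ (hc.2 s hs)
      exact ⟨(α, β), fun _ => h⟩
  choose αβ hαβ using h1
  let α : W → Fin n → ℂ := fun s => (αβ s).1
  let β : W → Fin n → ℂ := fun s => (αβ s).2
  have H : Hyp ρ c α β :=
    ⟨hc.1, fun s hs => (hαβ s hs).1, fun s hs => (hαβ s hs).2.1, fun s hs => (hαβ s hs).2.2⟩
  refine ⟨{
    e := ee ρ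
    eC := fun w k => ⟨_, ee_C ρ w k⟩
    ef := fun w f => by
      rw [ee_C]
      exact congrArg C (kap_emb (ρ w) f)
    eX := ee_X ρ
    A := AA c α
    R := {
      x := fun a => mm n (C (emb n (X a)))
      y := fun a => mm n (X a) + TA ρ c α a
      u := { toFun := EW ρ, map_one' := ?_, map_mul' := EW_mul ρ }
      xx := ?_
      yy := ?_
      ux := ?_
      uy := ?_
      yx := ?_ }
    Rx := fun a => rfl
    Ru := fun w => rfl
    Ry := fun a => rfl }⟩
  · refine LinearMap.ext fun f => ?_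
    rw [EW_apply, map_one]
    rfl
  · intro a b
    rw [← mmC_mul, ← mmC_mul, mul_comm]
  · intro a b
    have h2 := XT' H a b
    have h3 := TT hD hc.2 H a b
    have h4 : mm n (X a) * mm n (X b) = mm n (X b) * mm n (X a) := by
      rw [← map_mul, ← map_mul, mul_comm]
    calc (mm n (X a) + TA ρ c α a) * (mm n (X b) + TA ρ c α b) =
        mm n (X a) * mm n (X b) + (mm n (X a) * TA ρ c α b + TA ρ c α a * mm n (X b)) +
          TA ρ c α a * TA ρ c α b := by
          rw [add_mul, mul_add, mul_add]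
          abel
      _ = mm n (X b) * mm n (X a) + (mm n (X b) * TA ρ c α a + TA ρ c α b * mm n (X a)) +
          TA ρ c α b * TA ρ c α a := by rw [h2, h3, h4]
      _ = _ := by
          rw [add_mul, mul_add, mul_add]
          abel
  · intro w a
    change EW ρ w * mm n (C (emb n (X a))) = _ * EW ρ w
    rw [EW_mmC, ux_aux]
    refine congrArg (fun z => z * EW ρ w) ?_
    rw [map_sum, map_sum]
    refine Finset.sum_congr rfl fun b _ => ?_
    rw [smul_mm, algMap_Un, C_mul]
  · intro w a
    change EW ρ w * (mm n (X a) + TA ρ c α a) = _ * EW ρ w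
    rw [mul_add, uT H, EW_mm, ← add_mul]
    refine congrArg (fun z => z * EW ρ w) ?_
    simp only [smul_add]
    rw [Finset.sum_add_distrib]
    refine congrArg₂ (· + ·) ?_ rfl
    rw [ee_X, map_sum]
    refine Finset.sum_congr rfl fun b _ => ?_
    rw [smul_mm, algMap_Un]
  · intro a b
    change (mm n (X a) + TA ρ c α a) * mm n (C (emb n (X b))) -
      mm n (C (emb n (X b))) * (mm n (X a) + TA ρ c α a) = ∑ w, _ • EW ρ w
    have h2 : mm n (X a) * mm n (C (emb n (X b))) = mm n (C (emb n (X b))) * mm n (X a) := by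
      rw [← map_mul, ← map_mul, mul_comm]
    rw [add_mul, Tx H, h2, mul_add]
    abel

end dunkl

end Pool.Agent.V5helper50.CM.DK
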